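import Pool.Agent.W_f569db_gs.Main

/-!
# The standard conjecture D for all powers of a variety with bad reduction
-/

namespace Pool.Agent.Results.MP_f569db_ag.DegenerateReduction

open Pool.Agent.WeilH_h6 Pool.Agent.WeilH_h6.VarClass Pool.Agent.WeilH_h6.Weil Pool.Agent.GSp

universe u v w u' w'

/-- Let `W` be a Weil cohomology theory with coefficients in the field `K` of characteristic `0`, for
varieties over the field `k`, and let `X` be a variety such that the parity operator of `H(X)` is given by a
cycle on `X × X`, with a polarised generator `U = p H(X)` of `H(X)` (for an abelian variety `U = H^1(X)`, for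
a K3 surface `U` is the primitive part of `H^2(X)`; if `X` satisfies `B(X)` one can take `U = H(X)`).

1. Totally degenerate reduction.  Let `D` be a degeneration of `X`, over any field `k₀`, such that the
   cohomology of the strata `Y_a` is spanned by the classes of cycles, and such that the rational forms
   `Tr (N^n x · θ(x))` on the primitive classes of weight `-n` in `U` are anisotropic (`Definite`).  Then the
   standard conjecture `D` is true for all powers of `X`.
2. In general: if the standard conjecture `D` fails for some power of `X`, there is a subspace `I ≠ 0` of `U`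
   which is isotropic for all forms `Tr (x · ψ(y))`, `ψ` an algebraic endomorphism of `H(X)`, and stable
   under the algebraic endomorphisms and all symmetries of `H(X)` (`IsotropicStable`), and which is cut out
   by EVERY degeneration `D` of `X`, over any field `k₀`, for which the standard conjecture `D` is true for
   the products `Y_{a_1} × ⋯ × Y_{a_m}` of strata: there is an endomorphism `φ = p φ p` of `H(X)` given by
   cycles on the `Y_b × Y_a` which commutes with the monodromy operator `N` and with the weight operator
   `h`, has image `I` and acts on `I` as a nonzero scalar (`CutOut`). -/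
theorem result {k : Type u} [Field k] {𝒱 : VarClass k} {K : Type v} [Field K] [CharZero K]
    (W : Weil.{u, v, w} 𝒱 K) (X : 𝒱.Obj) (hpar : W.ParityRat X) (P : W.Polarised X) :
    (∀ {k₀ : Type u'} [Field k₀] {𝒱₀ : VarClass k₀} (W₀ : Weil.{u', v, w'} 𝒱₀ K) (D : Degen W₀ W X),
      (∀ a, W₀.algSpan (D.Y a) = ⊤) → D.Definite P → ∀ m, W.HomEqNum (X.pow m)) ∧
    ((∃ m, ¬ W.HomEqNum (X.pow m)) →
      ∃ I : Submodule K (W.H X), I ≠ ⊥ ∧ P.IsotropicStable I ∧
        ∀ {k₀ : Type u'} [Field k₀] {𝒱₀ : VarClass k₀} (W₀ : Weil.{u', v, w'} 𝒱₀ K)
          (D : Degen W₀ W X), (∀ m a, W₀.HomEqNum ((D.toSys.pow m).Y a)) → D.CutOut P I) :=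
  ⟨fun W₀ D hA hpos m => degen_total X hpar P W₀ D hA hpos m, degen_obstruction X hpar P⟩

end Pool.Agent.Results.MP_f569db_ag.DegenerateReduction
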