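import Pool.Agent.W_f569db_h6.WcEquiv
import Pool.Agent.WeilH_h6.Main
import Pool.Agent.WeilH_h6.Conv

set_option autoImplicit false

/-!
# Standard conjecture D for all powers of a variety is a statement on its Weil classes

`W` is a Weil cohomology theory with coefficients in a field `K` of characteristic zero, `X` is a
variety whose cohomology is generated, as a `K`-algebra, by finitely many direct summands
`V_i = p_i H(X)` cut out by algebraic idempotents, and `S` is a set of symmetries of `H(X)` (for
instance a Galois group, or a monodromy group) which acts absolutely irreducibly on every `V_i`.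

For `n ∈ ℤ^I` the Weil line `D_n = ⊗_i det(V_i)^{⊗ n_i}` (`det` is the highest exterior power, and
`det(V_i)^{⊗ -1}` is `det(V_i^∨)`) is a one-dimensional subspace of the cohomology of a power of `X`.

* (b) `D_n` is not orthogonal to the algebraic classes if and only if `D_{-n}` is algebraic.
* (c) If the tensor product of a word in the `V_i` and `V_i^∨`, of multidegree `δ`, contains a nonzero
  algebraic class `z`, then a Weil line `D_n` is algebraic for some `n` with `n_i dim V_i = N δ_i`,
  `N ≥ 1`; if `z` is numerically trivial then so is `D_n`.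
* (d) `D(X^m)` holds for all `m` if and only if no algebraic Weil line is numerically trivial, that is,
  if and only if `D_{-n}` is algebraic whenever `D_n` is; and it is enough to consider those `n` for
  which `(n_i dim V_i)_i` is invariant under a finite group `G` acting on `I` which preserves the words
  with a nonzero algebraic class (for instance the Galois group of `K` over a field over which the
  cohomology theory is defined).
* (e) In particular `D(X^m)` holds for all `m` if for every `i` and each sign there is a nonempty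
  word with a nonzero algebraic class whose letters are `V_j`, `j ∈ G i` (respectively `V_j^∨`).
-/

namespace Pool.Agent.Results.MP_f569db_ag.WeilClasses

open Pool.Agent.WeilH_h6 Pool.Agent.WeilH_h6.Weil.Pieces VarClass

universe u v w

theorem result {k : Type u} [Field k] {𝒱 : VarClass k} {K : Type v} [Field K] [CharZero K]
    (W : Weil.{u, v, w} 𝒱 K) (X : 𝒱.Obj) {I : Type} [Fintype I] (P : W.Pieces X I)
    (hP : P.Generate) (S : Set (W.Hom X X)) (hS : P.AbsIrr S) :
    -- (a) the Weil lines are lines
    (∀ (ε : Bool) (L : List (I × Bool)), Module.finrank K (P.weil ε L) = 1) ∧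
    -- (b)
    (∀ L : List (I × Bool), ¬ IsNum (P.weil true L) ↔ IsAlg (P.weil false L)) ∧
    -- (c)
    (∀ (m : ℕ) (l : Fin m → I × Bool), ∀ z ∈ P.wordPart l, z ∈ W.algSpan (X.pow m) → z ≠ 0 →
      ∃ (N : ℕ) (L : List (I × Bool)), 1 ≤ N ∧ Reduced L ∧ (∀ i, P.wmul L i = N * wdeg l i) ∧
        IsAlg (P.weil true L) ∧
        ((∀ (j : ℕ) (z' : Cyc (X.pow m) j), W.deg (z * W.cl z') = 0) → IsNum (P.weil true L))) ∧
    ∀ (G : Type) [Group G] [Finite G] [MulAction G I],
      (∀ (g : G) (m : ℕ) (l : Fin m → I × Bool), P.HasClass l →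
        P.HasClass fun s => (g • (l s).1, (l s).2)) →
      -- (d)
      ((∀ m : ℕ, W.HomEqNum (X.pow m)) ↔
        ∀ L : List (I × Bool), Reduced L → (∀ (g : G) (i : I), P.wmul L (g • i) = P.wmul L i) →
          IsAlg (P.weil true L) → ¬ IsNum (P.weil true L)) ∧
      -- (e)
      ((∀ (i : I) (b : Bool), ∃ (m : ℕ) (l : Fin (m + 1) → I × Bool),
          (∀ s, (l s).1 ∈ MulAction.orbit G i ∧ (l s).2 = b) ∧ P.HasClass l) →
        ∀ m : ℕ, W.HomEqNum (X.pow m)) := by
  refine ⟨fun ε L => P.finrank_weil ε L, fun L => P.not_isNum_iff L, ?_, ?_⟩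
  · intro m l z hz ha hz0
    obtain ⟨N, L, b, hN, hred, hmul, hL, hb1, hb2⟩ := P.exists_weil hS hz ha hz0
    refine ⟨N, L, hN, hred, hmul, ?_, fun h => ?_⟩
    · rw [hL, isAlg_span]
      exact hb1
    · rw [hL]
      exact isNum_of_NT (hb2 ⟨ha, (Weil.orth_iff z).1 h⟩)
  · intro G _ _ _ hG
    refine ⟨⟨fun h L _ _ => P.not_isNum_of_homEqNum h L, fun h m =>
      P.homEqNum_of_weil hP hS hG h m⟩, fun h => ?_⟩
    refine P.homEqNum_of_degSymm hP hS (P.degSymm_of_orbits (G := G) ?_ ?_)
    · intro g m l z h1 h2 h3
      obtain ⟨z', h4, h5, h6⟩ := hG g m l ⟨z, h1, h2, h3⟩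
      exact ⟨z', h4, h5, h6⟩
    · intro i b
      obtain ⟨m, l, h1, z, h2, h3, h4⟩ := h i b
      exact ⟨m, l, z, h1, h2, h3, h4⟩

end Pool.Agent.Results.MP_f569db_ag.WeilClasses
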